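import Pool.Agent.Helper98.GX.St3

/-!
# Project GX, module BAS: every prime divisor is in some chart
-/

set_option autoImplicit false

namespace Pool.Agent.Helper30.GX

open Pool.Agent.Helper98.GX
open Pool.Agent.Helper53.CX (DivVal LinSys IsNefCartier)

private lemma ord_div_aux {K : Type} [Field K] [Algebra ℂ K] (v : DivVal K) {a b : K} (ha : a ≠ 0)
    (hb : b ≠ 0) : v.ord (a / b) = v.ord a - v.ord b := by
  have h := v.ord_mul (a / b) b (div_ne_zero ha hb) hb
  rw [div_mul_cancel₀ _ hb] at h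
  linarith

theorem hBAS (hLPX : StLPX) (hJLB : StJLB) : StBAS := by
  intro K _ _ V r B n L Fr q hq
  have key : ∀ k : Fin r, ∃ a : Fin (n + r), Fr.bl a = k ∧ q ≠ Fr.pr a := by
    intro k
    by_contra hcon
    push Not at hcon
    obtain ⟨a0, ha0⟩ := Fr.surj k
    have hq0 : q = Fr.pr a0 := hcon a0 ha0
    have huniq : ∀ a, Fr.bl a = k → a = a0 := fun a ha => Fr.pr_inj ((hcon a ha).symm.trans hq0)
    choose β hβ using Fr.surj
    have hβk : β k = a0 := huniq _ (hβ k)
    obtain ⟨L', e, hc⟩ := hLPX K V r B n L Fr β hβ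
    have hz : ∀ j, q.ord (L'.z j) = 0 := by
      intro j
      have he : e j ≠ a0 := by
        intro h
        have h0 := (hc.range (e j)).1 ⟨j, rfl⟩
        apply h0
        rw [h, ha0, hβk]
      have hlk : Fr.bl (e j) ≠ k := fun h => he (huniq _ h)
      have hβl : β (Fr.bl (e j)) ≠ a0 := by
        intro h
        apply hlk
        rw [← hβ (Fr.bl (e j)), h, ha0]
      have h1 := Fr.div_other (e j) q hq (by rw [hq0]; exact fun h => he (Fr.pr_inj h).symm)
      have h2 := Fr.div_other (β (Fr.bl (e j))) q hq (by rw [hq0]; exact fun h => hβl (Fr.pr_inj h).symm)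
      rw [hβ (Fr.bl (e j))] at h2
      rw [hc.z_eq j, ord_div_aux q (Fr.ne _) (Fr.ne _)]
      linarith
    have h4 := (hJLB K n L' q).2 hz
    rw [hc.omega q, hq0, Fr.omega_pr a0] at h4
    norm_num at h4
  choose β h1 h2 using key
  exact ⟨β, h1, h2⟩

end Pool.Agent.Helper30.GX
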